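import Pool.Agent.Lib.MP_bd85b6_lc.BMain

set_option autoImplicit false

namespace Pool.Agent.Results.MP_bd85b6_lc.Trdeg

open MvPolynomial Pool.Agent.Lib.MP_bd85b6_lc.B

/-- For a simple and minimal depth four identity over the complex numbers with `k` gates and
bottom degree at most `d`, the algebra generated by all divisors of the gates (among them all the
factors `Q i j`) has transcendence degree bounded in terms of `k` and `d`. -/
theorem result : ∃ lam : ℕ → ℕ → ℕ, ∀ (k d N : ℕ) (n : Fin k → ℕ)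
    (Q : (i : Fin k) → Fin (n i) → MvPolynomial (Fin N) ℂ)
    (T : Fin k → MvPolynomial (Fin N) ℂ), 1 ≤ k →
    (∀ i j, Q i j ≠ 0 ∧ (Q i j).totalDegree ≤ d) →
    (∀ i, T i = ∏ j, Q i j) →
    (∀ g : MvPolynomial (Fin N) ℂ, (∀ i, g ∣ T i) → g.totalDegree = 0) →
    (∀ S : Finset (Fin k), S.Nonempty → S ≠ Finset.univ → ∑ i ∈ S, T i ≠ 0) →
    ∑ i, T i = 0 →
    Algebra.trdeg ℂ (Algebra.adjoin ℂ {q : MvPolynomial (Fin N) ℂ | ∃ i, q ∣ T i}) ≤ lam k d := by
  classical
  choose f hf using exists_bound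
  refine ⟨f, fun k d N n Q T hk hQ hT hcop hmin hsum => ?_⟩
  have hT0 : ∀ i, T i ≠ 0 := fun i => by
    rw [hT]
    exact Finset.prod_ne_zero_iff.2 fun j _ => (hQ i j).1
  have hcop' : ∀ g : MvPolynomial (Fin N) ℂ, (∀ i, g ∣ T i) → IsUnit g := by
    intro g hg
    have h0 : g ≠ 0 := ne_zero_of_dvd_ne_zero (hT0 ⟨0, hk⟩) (hg _)
    have h1 := totalDegree_eq_zero_iff_eq_C.1 (hcop g hg)
    rw [h1] at h0 ⊢
    exact (IsUnit.mk0 _ fun h => h0 (by rw [h, map_zero])).map C
  have hb := fun x => hf k d (by simp) T hT0 (fun i q hq h => by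
    rw [hT] at h
    obtain ⟨j, -, hj⟩ := hq.prime.exists_mem_finset_dvd h
    exact (totalDegree_le_of_dvd_of_isDomain hj (hQ i j).1).trans (hQ i j).2) hcop' hmin hsum x
  have hg : ∀ x, ∀ p ∈ Algebra.adjoin ℂ {q : MvPolynomial (Fin N) ℂ | ∃ i, q ∣ T i},
      grad p x ∈ GS (Irr T) x := by
    intro x p hp
    induction hp using Algebra.adjoin_induction with
    | mem p hp =>
      obtain ⟨i, hi⟩ := hp
      exact grad_mem x (ne_zero_of_dvd_ne_zero (hT0 i) hi) fun q hq h => ⟨hq, i, h.trans hi⟩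
    | algebraMap r =>
      rw [algebraMap_eq, grad_C]
      exact zero_mem _
    | add p q _ _ hp hq =>
      have : grad (p + q) x = grad p x + grad q x := by
        ext i
        simp [grad]
      rw [this]
      exact add_mem hp hq
    | mul p q _ _ hp hq =>
      rw [grad_mul]
      exact add_mem (Submodule.smul_mem _ _ hq) (Submodule.smul_mem _ _ hp)
  unfold Algebra.trdeg
  refine ciSup_le' fun s => Cardinal.card_le_of fun t => ?_
  have hs : AlgebraicIndependent ℂ fun p : s.1 => (p.1.1 : MvPolynomial (Fin N) ℂ) :=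
    AlgebraicIndependent.map' (f := Subalgebra.val _) s.2 Subtype.val_injective
  obtain ⟨x, hx⟩ := jacobian (fun r : Fin t.card => ((t.equivFin.symm r).1.1.1 :
    MvPolynomial (Fin N) ℂ))
    (hs.comp (fun r : Fin t.card => (t.equivFin.symm r).1)
      (Subtype.val_injective.comp t.equivFin.symm.injective))
  have h1 := card_le_finrank_of_mem _ _ hx fun r => hg x _ (t.equivFin.symm r).1.1.2
  rw [Fintype.card_fin] at h1
  exact h1.trans (hb x)

end Pool.Agent.Results.MP_bd85b6_lc.Trdeg
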